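import Pool.Agent.Helper32.OIP.Goals

namespace Pool.Agent.Helper67.OIP

open MeasureTheory Pool.Agent.Helper32.OIP Pool.Agent.Helper58.Orb

section

variable {A B : Type} [Group A] [Group B] {S : Set A} {S' : Set B} {D L : Type}

/-- The property of the points used below. -/
structure Good (T : TreeData A S D) (T' : TreeData B S' L) (Φ : Bern A → Bern B)
    (x : Bern A) : Prop where
  free : ∀ g k : A, shift k (shift g x) = shift g x → k = 1
  free' : ∀ b : B, shift b (Φ x) = Φ x → b = 1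
  iso : ∀ g k : A, orbDist S' (Φ (shift g x)) (Φ (shift k (shift g x))) =
    orbDist S (shift g x) (shift k (shift g x))
  lab : ∀ g : A, ∃ f : D ≃ L, ∀ s,
    Φ (shift (T.dir s) (shift g x)) = shift (T'.dir (f s)) (Φ (shift g x))

variable {T : TreeData A S D} {T' : TreeData B S' L} {Φ : Bern A → Bern B} {x : Bern A}

theorem Good.uniq (h : Good T T' Φ x) {g g' : A} (e : Φ (shift g x) = Φ (shift g' x)) :
    g = g' := by
  have e2 := h.iso g (g' * g⁻¹)
  rw [orbDist_shift (h.free g), T.wordLen_eq, ← shift_mul, inv_mul_cancel_right, ← e,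
    orbDist_self T'] at e2
  have e3 : T.len (g' * g⁻¹) = 0 := by exact_mod_cast e2.symm
  have e4 := T.eq_one_of_len e3
  exact (mul_inv_eq_one.1 e4).symm

theorem Good.ex (h : Good T T' Φ x) (b : B) : ∃ g : A, Φ (shift g x) = shift b (Φ x) := by
  obtain ⟨l, hl, rfl, hlen⟩ := T'.exists_list b
  clear hlen
  induction l with
  | nil => exact ⟨1, by rw [shift_one, List.prod_nil, shift_one]⟩
  | cons a l ih =>
    obtain ⟨g, hg⟩ := ih fun a ha => hl a (by simp [ha])
    obtain ⟨m, rfl⟩ := T'.exists_dir (hl a (by simp))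
    obtain ⟨f, hf⟩ := h.lab g
    refine ⟨T.dir (f.symm m) * g, ?_⟩
    rw [shift_mul, hf, Equiv.apply_symm_apply, hg, List.prod_cons, shift_mul]

theorem Good.exu (h : Good T T' Φ x) (b : B) : ∃! g : A, Φ (shift g x) = shift b (Φ x) := by
  obtain ⟨g, hg⟩ := h.ex b
  exact ⟨g, hg, fun g' hg' => h.uniq (hg'.trans hg.symm)⟩

theorem Good.psn_spec (h : Good T T' Φ x) (b : B) :
    Φ (shift (psn Φ x b) x) = shift b (Φ x) := by
  have hu := h.exu b
  unfold psn
  rw [dif_pos hu]
  exact hu.choose_spec.1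

theorem Good.psn_eq (h : Good T T' Φ x) {b : B} {g : A} (hg : Φ (shift g x) = shift b (Φ x)) :
    psn Φ x b = g :=
  h.uniq ((h.psn_spec b).trans hg.symm)

theorem Good.len (h : Good T T' Φ x) {b : B} {g : A} (hg : Φ (shift g x) = shift b (Φ x)) :
    T.len g = T'.len b := by
  have e := h.iso 1 g
  rw [shift_one, hg, orbDist_shift h.free', T'.wordLen_eq,
    orbDist_shift (by have := h.free 1; rwa [shift_one] at this), T.wordLen_eq] at e
  exact_mod_cast e.symm

theorem Good.bij (h : Good T T' Φ x) : Function.Bijective (rd Φ x) := by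
  constructor
  · intro b b' hb
    unfold rd at hb
    have h1 : psn Φ x b⁻¹ = psn Φ x b'⁻¹ := inv_injective hb
    have h2 := h.psn_spec b⁻¹
    rw [h1, h.psn_spec b'⁻¹] at h2
    have h3 : b * b'⁻¹ = 1 := by
      apply h.free'
      rw [shift_mul, h2, shift_shift_inv]
    exact mul_inv_eq_one.1 h3
  · intro a
    have e := h.iso 1 a⁻¹
    rw [shift_one, orbDist_shift (g := a⁻¹) (by have := h.free 1; rwa [shift_one] at this),
      T.wordLen_eq] at e
    have h2 : orbDist S' (Φ x) (Φ (shift a⁻¹ x)) < ((T.len a⁻¹ + 1 : ℕ) : ℕ∞) := by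
      rw [e]; exact_mod_cast Nat.lt_succ_self _
    unfold orbDist at h2
    rw [iInf_lt_iff] at h2
    obtain ⟨b, hb⟩ := h2
    rw [iInf_lt_iff] at hb
    obtain ⟨hb, _⟩ := hb
    refine ⟨b⁻¹, ?_⟩
    unfold rd
    rw [_root_.inv_inv, h.psn_eq hb.symm, _root_.inv_inv]

theorem measurableSet_psn [Countable A] [Countable B] (hΦ : Measurable Φ) (b : B) (g : A) :
    MeasurableSet {x | psn Φ x b = g} := by
  classical
  have hm : ∀ g, MeasurableSet (agree Φ g b) := fun g => measurableSet_agree hΦ g b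
  have hV : ∀ g, MeasurableSet (agree Φ g b \ ⋃ g' ∈ {g' | g' ≠ g}, agree Φ g' b) := fun g =>
    (hm g).diff (MeasurableSet.biUnion (Set.to_countable _) fun g' _ => hm g')
  have hVU : ∀ g x, x ∈ (agree Φ g b \ ⋃ g' ∈ {g' | g' ≠ g}, agree Φ g' b) ↔
      (Φ (shift g x) = shift b (Φ x) ∧ ∀ g', Φ (shift g' x) = shift b (Φ x) → g' = g) := by
    intro g x
    simp only [Set.mem_sdiff, Set.mem_iUnion, Set.mem_ofPred_eq, agree, exists_prop, not_exists,
      not_and]
    constructor
    · rintro ⟨h1, h2⟩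
      exact ⟨h1, fun g' h3 => by_contra fun h4 => h2 g' h4 h3⟩
    · rintro ⟨h1, h2⟩
      exact ⟨h1, fun g' h3 h4 => h3 (h2 g' h4)⟩
  have hU : MeasurableSet (⋃ g, (agree Φ g b \ ⋃ g' ∈ {g' | g' ≠ g}, agree Φ g' b)) :=
    MeasurableSet.iUnion hV
  have key : {x | psn Φ x b = g} = (agree Φ g b \ ⋃ g' ∈ {g' | g' ≠ g}, agree Φ g' b) ∪
      ((⋃ g, (agree Φ g b \ ⋃ g' ∈ {g' | g' ≠ g}, agree Φ g' b))ᶜ ∩ {_x | g = 1}) := by
    ext x
    rw [Set.mem_union, hVU, Set.mem_inter_iff, Set.mem_compl_iff, Set.mem_iUnion]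
    simp only [Set.mem_ofPred_eq]
    by_cases hx : ∃! g : A, Φ (shift g x) = shift b (Φ x)
    · have h1 : psn Φ x b = hx.choose := by
        unfold psn; rw [dif_pos hx]
      have h2 := hx.choose_spec
      rw [h1]
      constructor
      · intro h3
        left
        rw [← h3]
        exact h2
      · rintro (h3 | ⟨h3, _⟩)
        · exact h3.2 _ h2.1
        · exact absurd ⟨hx.choose, (hVU _ _).2 h2⟩ h3
    · have h1 : psn Φ x b = 1 := by
        unfold psn; rw [dif_neg hx]
      rw [h1]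
      constructor
      · intro h3
        right
        exact ⟨fun ⟨g', hg'⟩ => hx ⟨g', (hVU _ _).1 hg'⟩, h3.symm⟩
      · rintro (h3 | ⟨_, h3⟩)
        · exact absurd ⟨g, h3⟩ hx
        · exact h3.symm
  rw [key]
  exact (hV g).union (hU.compl.inter (MeasurableSet.const _))

end

theorem o2 : GoalO2 := by
  intro hR0 hO1 A B _ _ _ _ S S' D L _ _ T T' e₀ Φ hΦ
  have hO := hO1 A B S S' D L T T' e₀ Φ hΦ
  have hgood : ∀ᵐ x ∂(bern A), Good T T' Φ x := by
    have h1 := ae_forall_shift (ae_free (G := A))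
    have h2 := hΦ.measurePreserving.quasiMeasurePreserving.ae (ae_free (G := B))
    have h3 := ae_forall_shift hΦ.dist_eq
    have h4 := ae_forall_shift hO.1
    filter_upwards [h1, h2, h3, h4] with x a1 a2 a3 a4
    exact ⟨a1, a2, a3, fun g => (a4 g).exists⟩
  refine ⟨?_, ?_, ?_⟩
  · filter_upwards [hgood] with x hx b
    exact ⟨hx.exu b, hx.psn_spec b, hx.len (hx.psn_spec b)⟩
  · filter_upwards [hgood] with x hx
    refine ⟨hx.bij, fun b => ?_⟩
    unfold rd
    rw [(hR0 A S D T).2.1, hx.len (hx.psn_spec b⁻¹), (hR0 B S' L T').2.1]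
  · intro b g
    have : {x | rd Φ x b = g} = {x | psn Φ x b⁻¹ = g⁻¹} := by
      ext x
      simp only [Set.mem_ofPred_eq, rd]
      rw [inv_eq_iff_eq_inv]
    rw [this]
    exact measurableSet_psn hΦ.measurePreserving.measurable _ _

end Pool.Agent.Helper67.OIP
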